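import Pool.Agent.Run7.h582.OD.App1

/-!
# Difference sets with Singer parameters: the orders near `lam n * x + c n`, for almost every `x` with respect to every measure
# with polynomial Fourier decay

`HasSingerDifferenceSet q m`: some finite group (not assumed abelian) contains a difference set with the Singer parameters of
`(q, m)`. `Liftable q m`: there is one which lifts, as the classical Singer difference sets do, to a relative difference set in a
finite group with a normal Sylow 2-subgroup. `q` is an `Order` with the parameter `K` if the first is true for an odd `m ≥ 3`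
whose least prime factor is at most `K` (for `m = 3`: a planar difference set of order `q`) or the second for an even `m ≥ 4`.
Conjecturally `q` is then a prime power.

The starting results count the orders in the interval `[1, X]` (their number is `O(X (log X) ^ (ε - 1))`), or those in the
values of polynomials, and say nothing about the integers in an interval of the length `log ^ κ X` around a given real number,
such as the integer parts of `b ^ n x`. Here the real numbers are the points `lam n * x + c n`, where `x` is random with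
respect to an ARBITRARY finite Borel measure `μ` with bounded support and Fourier transform `O (|ξ| ^ (-δ))` for some `δ > 0`:
such measures can be singular, they can live on sets of an arbitrarily small positive Hausdorff dimension (for example
Salem sets, images of Brownian motion, the well approximable numbers).

Method: (a) Brun's sieve of the starting file (`Pool.Agent.W52.PQ.SV`) and the argument with the smallest exact prime divisors
(`Pool.Agent.Y346.SG.OC`) are carried over from intervals to all finite families of integers which are uniformly distributed in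
the residue classes modulo all the `q ≤ N ^ 2`: at most `C (log N) ^ (ε - 1)` of the members are orders
(`Pool.Agent.Run7.h582.OD`, `ocF`); (b) a measure with polynomial Fourier decay is replaced by finite families of real numbers
with the same exponential sums; the characteristic functions of the integer parts of the members decay like a power of the
distance to the integers (`Pool.Agent.Run7.h582.FM`), so these families are uniformly distributed modulo all `q ≤ N ^ 2`,
`N` a power of `lam n`; (c) the lemma of Borel and Cantelli; in the second statement Markov's inequality at powers of two.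
-/

set_option autoImplicit false

namespace Pool.Agent.Results.MP_79499b_co.FourierDecayOrders

open Filter MeasureTheory

/-- `μ` is a finite Borel measure with bounded support, and its Fourier transform decays polynomially. -/
def FourierDecay (μ : Measure ℝ) : Prop :=
  IsFiniteMeasure μ ∧ (∃ R : ℝ, μ (Set.Icc (-R) R)ᶜ = 0) ∧ ∃ C δ : ℝ, 0 < δ ∧ ∀ ξ : ℝ, ξ ≠ 0 →
    ‖∫ t : ℝ, Complex.exp (((ξ * t : ℝ) : ℂ) * Complex.I) ∂μ‖ ≤ C * |ξ| ^ (-δ)

/-- Some finite group `G` (not assumed abelian) of order `(n ^ m - 1) / (n - 1)` contains a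
difference set `D` with the Singer parameters:
`k = (n ^ (m - 1) - 1) / (n - 1)`, `lambda = (n ^ (m - 2) - 1) / (n - 1)`. -/
def HasSingerDifferenceSet (n m : ℕ) : Prop :=
  ∃ (G : Type) (_ : Group G) (_ : Fintype G) (_ : DecidableEq G) (D : Finset G),
    Fintype.card G * (n - 1) = n ^ m - 1 ∧ D.card * (n - 1) = n ^ (m - 1) - 1 ∧
    ∀ g : G, g ≠ 1 →
      ((D ×ˢ D).filter (fun p : G × G => p.1 * p.2⁻¹ = g)).card * (n - 1) = n ^ (m - 2) - 1

/-- `E` is a difference set with the Singer parameters in the finite group `Q` (not assumed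
abelian): `v = (n ^ m - 1) / (n - 1)`, `k = (n ^ (m - 1) - 1) / (n - 1)`,
`lambda = (n ^ (m - 2) - 1) / (n - 1)`. -/
def IsSinger {Q : Type} [Group Q] [Fintype Q] [DecidableEq Q] (E : Finset Q) (n m : ℕ) : Prop :=
  Fintype.card Q * (n - 1) = n ^ m - 1 ∧ E.card * (n - 1) = n ^ (m - 1) - 1 ∧
    ∀ g : Q, g ≠ 1 →
      ((E ×ˢ E).filter (fun p : Q × Q => p.1 * p.2⁻¹ = g)).card * (n - 1) = n ^ (m - 2) - 1

/-- The difference set `E` lifts to the group `G`: there are a surjective homomorphism `π : G → Q`
with a kernel of order `n - 1` and a subset `D` of `G`, mapped by `π` bijectively onto the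
complement of `E`, such that each `g ∈ G` outside the kernel has exactly `n ^ (m - 2)`
representations `g = d₁ * d₂⁻¹` with `d₁, d₂ ∈ D` (so `D` is a relative difference set in `G`, with
forbidden subgroup the kernel). -/
def LiftsTo {Q : Type} [Group Q] [Fintype Q] [DecidableEq Q] (E : Finset Q) (n m : ℕ)
    (G : Type) [Group G] [Fintype G] [DecidableEq G] : Prop :=
  ∃ (π : G →* Q) (D : Finset G), Function.Surjective π ∧ Nat.card π.ker = n - 1 ∧
    D.image π = Eᶜ ∧ Set.InjOn π D ∧
    ∀ g : G, π g ≠ 1 → ((D ×ˢ D).filter (fun p : G × G => p.1 * p.2⁻¹ = g)).card = n ^ (m - 2)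

/-- There is a difference set with the Singer parameters of `(n, m)` which lifts to a finite group
`G` with a normal Sylow 2-subgroup, i.e. with a normal subgroup of 2-power order and odd index.
(Every nilpotent group and, if `n` is even, every group `G` of order `n ^ m - 1` has one.) -/
def Liftable (n m : ℕ) : Prop :=
  ∃ (Q : Type) (_ : Group Q) (_ : Fintype Q) (_ : DecidableEq Q) (E : Finset Q)
    (G : Type) (_ : Group G) (_ : Fintype G) (_ : DecidableEq G),
    (∃ K : Subgroup G, K.Normal ∧ (∃ s, Nat.card K = 2 ^ s) ∧ Odd K.index) ∧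
    IsSinger E n m ∧ LiftsTo E n m G

/-- `q ≥ 2` is an order: there is a difference set with the Singer parameters of `(q, m)`, `m ≥ 3` odd with least prime factor
at most `K`, or a liftable one with `m ≥ 4` even. -/
def Order (K q : ℕ) : Prop := 2 ≤ q ∧
  ((∃ m : ℕ, Odd m ∧ 3 ≤ m ∧ m.minFac ≤ K ∧ HasSingerDifferenceSet q m) ∨ (∃ m : ℕ, Even m ∧ 4 ≤ m ∧ Liftable q m))

/-- Some integer at a distance of at most `log ^ κ lam` from `lam * x + c` is an order. -/
def OrderNear (K : ℕ) (κ lam c x : ℝ) : Prop :=
  ∃ q : ℕ, |(q : ℝ) - (lam * x + c)| ≤ Real.log lam ^ κ ∧ Order K q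

/-- Let `μ` be a measure with `FourierDecay`, `0 ≤ κ < 1`, and let `lam n`, `c n` be real numbers (the `c n` are arbitrary).

**(1)** If `lam n ≥ exp (n ^ η)` for all large `n`, with `η > 1 / (1 - κ)`, then for `μ`-almost every `x`, for every `K`, for all
large `n`, NO integer at a distance of at most `log ^ κ (lam n)` from `lam n * x + c n` is an order.

**(2)** If `lam n ≥ exp (θ n ^ η)` for all large `n`, with `θ > 0`, `0 < η ≤ 1 / (1 - κ)`, then for every `δ > 0`, for `μ`-almost
every `x`, for every `K`, for all large `X`: among the `n ≤ X` at most `X ^ (1 - η (1 - κ) + δ)` are such that some integer at a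
distance of at most `log ^ κ (lam n)` from `lam n * x + c n` is an order. (For example, `κ = 0`, `lam n = b ^ n`, `b > 1`,
`η = 1`: at most `X ^ δ` of the integer parts of `b ^ n x`, `n ≤ X`, are orders.) -/
theorem result (μ : Measure ℝ) (hμ : FourierDecay μ) (κ : ℝ) (hκ : 0 ≤ κ) (hκ1 : κ < 1) (lam c : ℕ → ℝ) :
    (∀ η : ℝ, 1 < η * (1 - κ) → (∀ᶠ n : ℕ in atTop, Real.exp ((n : ℝ) ^ η) ≤ lam n) →
      ∀ᵐ x ∂μ, ∀ K : ℕ, ∀ᶠ n : ℕ in atTop, ¬ OrderNear K κ (lam n) (c n) x) ∧
    (∀ η θ δ : ℝ, 0 < η → 0 < θ → 0 < δ → η * (1 - κ) ≤ 1 →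
      (∀ᶠ n : ℕ in atTop, Real.exp (θ * (n : ℝ) ^ η) ≤ lam n) →
      ∀ᵐ x ∂μ, ∀ K : ℕ, ∀ᶠ X : ℕ in atTop,
        (({n : ℕ | n ∈ Finset.Icc 1 X ∧ OrderNear K κ (lam n) (c n) x}).ncard : ℝ) ≤
          (X : ℝ) ^ (1 - η * (1 - κ) + δ)) := by
  have hfin : IsFiniteMeasure μ := hμ.1
  have hmeas : ∀ K : ℕ, Pool.Agent.Run7.h582.OD.MeasG μ (fun v => 2 ≤ v → ¬ Order K v.toNat) := by
    intro K
    refine ((Pool.Agent.Run7.h582.OD.meas_singer K μ hμ).and (Pool.Agent.Run7.h582.OD.meas_exO
      (P := fun n => ∃ m, Even m ∧ 4 ≤ m ∧ Liftable n m) Pool.Agent.R116.AF.exO_lift μ hμ)).mono ?_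
    rintro v ⟨h1, h2⟩ hv ⟨_, h | h⟩
    · exact h1 hv h
    · exact h2 hv h
  have hnear : ∀ (K : ℕ) (lam c x : ℝ), (¬ ∀ q : ℤ, |(q : ℝ) - (lam * x + c)| ≤ Real.log lam ^ κ →
      (2 ≤ q → ¬ Order K q.toNat)) ↔ OrderNear K κ lam c x := by
    intro K lam c x
    unfold OrderNear
    constructor
    · intro h
      push Not at h
      obtain ⟨q, h1, h2, h3⟩ := h
      obtain ⟨n, rfl⟩ := Int.eq_ofNat_of_zero_le (by omega : 0 ≤ q)
      rw [Int.toNat_natCast] at h3
      exact ⟨n, by exact_mod_cast h1, h3⟩
    · rintro ⟨q, h1, h2⟩ h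
      refine h (q : ℤ) (by exact_mod_cast h1) (by exact_mod_cast h2.1) ?_
      rw [Int.toNat_natCast]
      exact h2
  refine ⟨fun η hη hlam => ?_, fun η θ δ hη0 hθ hδ hη hlam => ?_⟩
  · rw [ae_all_iff]
    intro K
    filter_upwards [Pool.Agent.Run7.h582.OD.ae_sparse (hmeas K) κ η hκ hκ1 hη lam c hlam] with x hx
    filter_upwards [hx] with n hn
    rw [← hnear]
    exact not_not.2 hn
  · rw [ae_all_iff]
    intro K
    filter_upwards [Pool.Agent.Run7.h582.OD.ae_few (hmeas K) κ η θ δ hκ hκ1 hη0 hθ hδ hη lam c hlam] with x hx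
    filter_upwards [hx] with X hX
    refine le_trans (le_of_eq ?_) hX
    congr 2
    ext n
    simp only [Set.mem_ofPred_eq]
    rw [hnear]

end Pool.Agent.Results.MP_79499b_co.FourierDecayOrders
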