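import Pool.Agent.Run7.h207.LG.Ae
import Pool.Agent.R116.SingPow2
import Pool.Agent.R116.AF.DivApp

/-!
# Difference sets with Singer parameters: no orders near generic linear forms

`HasSingerDifferenceSet n m`: some finite group (not assumed abelian) contains a difference set with the Singer parameters of
`(n, m)`. `Liftable n m`: there is one which lifts, as the classical Singer difference sets do, to a relative difference set in
a finite group with a normal Sylow 2-subgroup. Conjecturally `n` is then a prime power.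

The starting results say that few integers up to `X` are such orders, and that almost all members of certain sequences are not
such orders. Here we consider sequences with a real parameter, or with several real parameters, which may be as sparse as we
please, and we exclude ALL integers in windows around their members, for almost all values of the parameters.

**Theorem.** Let `v_j`, `j` in an index set, be vectors in `ℝ^k`, and let `w_j ≥ 1` be numbers such that the sum of the
`w_j / (1 + log (1 + |v_j|)) ^ s` converges for some `s < 1`. Then for almost all `α` in `ℝ^k`, for ALL `K` and ALL odd `i`, for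
all but finitely many `j`, no integer `n ≥ 2` with `|n - α · v_j| ≤ w_j` is such that, for some odd `m ≥ 3` whose least prime
factor is at most `K`, some finite group contains a difference set with the Singer parameters of `(n ^ i, m)`; and no integer
`n ≥ 2` with `|n - α · v_j| ≤ w_j` is such that `Liftable n m` for some even `m ≥ 4`.

Examples are the numbers `v_n = exp (n ^ a)` or `v_n = b ^ (n ^ a)`, `b > 1`, with windows of length `A (n + 1) ^ b'`, where
`1 + b' < a`; for instance for almost all real numbers `α` no integer at a distance at most `√n` from `α 2 ^ (n ^ 2)` is the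
order of a planar difference set, for all large `n`. (By Singer's theorem all prime powers are such orders, so that one cannot
expect more than the exponent `s = 1`.)

Proof. The number of these orders `n ≤ X` is at most `C X (log X) ^ (ε - 1)` (starting results `OrderCountOdd`, `PowerOrders`,
`LiftableSingerSets`). So the volume of the set of the bounded `α` for which the window of `j` contains such an order is at most
`C' w_j / (1 + log (1 + |v_j|)) ^ s`, and the lemma of Borel and Cantelli applies (`Pool.Agent.Run7.h207.LG.Ae`, which uses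
`Pool.Agent.N251.LF.Ae`).
-/

set_option autoImplicit false

open MeasureTheory

namespace Pool.Agent.Results.MP_79499b_co.OrdersNearLinearForms

/-- Some finite group `G` (not assumed abelian) of order `(n ^ m - 1) / (n - 1)` contains a difference set `D` with the Singer
parameters: `k = (n ^ (m - 1) - 1) / (n - 1)`, `lambda = (n ^ (m - 2) - 1) / (n - 1)`. -/
def HasSingerDifferenceSet (n m : ℕ) : Prop :=
  ∃ (G : Type) (_ : Group G) (_ : Fintype G) (_ : DecidableEq G) (D : Finset G),
    Fintype.card G * (n - 1) = n ^ m - 1 ∧ D.card * (n - 1) = n ^ (m - 1) - 1 ∧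
    ∀ g : G, g ≠ 1 →
      ((D ×ˢ D).filter (fun p : G × G => p.1 * p.2⁻¹ = g)).card * (n - 1) = n ^ (m - 2) - 1

/-- `E` is a difference set with the Singer parameters in the finite group `Q` (not assumed abelian):
`v = (n ^ m - 1) / (n - 1)`, `k = (n ^ (m - 1) - 1) / (n - 1)`, `lambda = (n ^ (m - 2) - 1) / (n - 1)`. -/
def IsSinger {Q : Type} [Group Q] [Fintype Q] [DecidableEq Q] (E : Finset Q) (n m : ℕ) : Prop :=
  Fintype.card Q * (n - 1) = n ^ m - 1 ∧ E.card * (n - 1) = n ^ (m - 1) - 1 ∧
    ∀ g : Q, g ≠ 1 →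
      ((E ×ˢ E).filter (fun p : Q × Q => p.1 * p.2⁻¹ = g)).card * (n - 1) = n ^ (m - 2) - 1

/-- The difference set `E` lifts to the group `G`: there are a surjective homomorphism `π : G → Q` with a kernel of order
`n - 1` and a subset `D` of `G`, mapped by `π` bijectively onto the complement of `E`, such that each `g ∈ G` outside the kernel
has exactly `n ^ (m - 2)` representations `g = d₁ * d₂⁻¹` with `d₁, d₂ ∈ D`. -/
def LiftsTo {Q : Type} [Group Q] [Fintype Q] [DecidableEq Q] (E : Finset Q) (n m : ℕ)
    (G : Type) [Group G] [Fintype G] [DecidableEq G] : Prop :=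
  ∃ (π : G →* Q) (D : Finset G), Function.Surjective π ∧ Nat.card π.ker = n - 1 ∧
    D.image π = Eᶜ ∧ Set.InjOn π D ∧
    ∀ g : G, π g ≠ 1 → ((D ×ˢ D).filter (fun p : G × G => p.1 * p.2⁻¹ = g)).card = n ^ (m - 2)

/-- There is a difference set with the Singer parameters of `(n, m)` which lifts to a finite group `G` with a normal Sylow
2-subgroup, i.e. with a normal subgroup of 2-power order and odd index. -/
def Liftable (n m : ℕ) : Prop :=
  ∃ (Q : Type) (_ : Group Q) (_ : Fintype Q) (_ : DecidableEq Q) (E : Finset Q)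
    (G : Type) (_ : Group G) (_ : Fintype G) (_ : DecidableEq G),
    (∃ K : Subgroup G, K.Normal ∧ (∃ s, Nat.card K = 2 ^ s) ∧ Odd K.index) ∧
    IsSinger E n m ∧ LiftsTo E n m G

/-- The windows have lengths `w j ≥ 1`, and the sum of the `w j / (1 + log (1 + |v j|)) ^ s` converges for some `s < 1`. -/
def Sparse {k : ℕ} {ι : Type} (v : ι → Fin k → ℝ) (w : ι → ℝ) : Prop :=
  (∀ j, 1 ≤ w j) ∧ ∃ s : ℝ, s < 1 ∧ Summable fun j => w j / (1 + Real.log (1 + ‖v j‖)) ^ s

/-- `E` holds for no natural number in the windows of all but finitely many `j`. -/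
def Avoids {k : ℕ} {ι : Type} (v : ι → Fin k → ℝ) (w : ι → ℝ) (α : Fin k → ℝ) (E : ℕ → Prop) : Prop :=
  {j | ∃ n : ℕ, E n ∧ |(n : ℝ) - ∑ l, α l * v j l| ≤ w j}.Finite

theorem result :
    (∀ (k : ℕ) (ι : Type) (v : ι → Fin k → ℝ) (w : ι → ℝ), Sparse v w → ∀ᵐ α : Fin k → ℝ,
      (∀ K i : ℕ, Odd i → Avoids v w α fun n => 2 ≤ n ∧
        ∃ m : ℕ, Odd m ∧ 3 ≤ m ∧ m.minFac ≤ K ∧ HasSingerDifferenceSet (n ^ i) m) ∧
      Avoids v w α fun n => 2 ≤ n ∧ ∃ m : ℕ, Even m ∧ 4 ≤ m ∧ Liftable n m) ∧
    (∀ (k : ℕ) (a b c A : ℝ) (u : Fin k → ℕ → ℝ), 0 < k → 0 ≤ b → 0 < c → 1 ≤ A → k * (1 + b) < a →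
      (∀ (l : Fin k) (n : ℕ), c * ((n : ℝ) + 1) ^ a ≤ 1 + Real.log (1 + |u l n|)) →
      Sparse (fun (n : Fin k → ℕ) (l : Fin k) => u l (n l)) (fun n => A * ∏ l, ((n l : ℝ) + 1) ^ b)) := by
  refine ⟨fun k ι v w hv => ?_, fun k a b c A u hk hb hc hA hab hu =>
    Pool.Agent.Run7.h207.LG.sparse_prod hk hb hc hA hab u hu⟩
  have hv' : Pool.Agent.Run7.h207.LG.Sparse v w := hv
  have h1 : ∀ᵐ α : Fin k → ℝ, ∀ K i : ℕ, Odd i → Avoids v w α fun n => 2 ≤ n ∧
      ∃ m : ℕ, Odd m ∧ 3 ≤ m ∧ m.minFac ≤ K ∧ HasSingerDifferenceSet (n ^ i) m := by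
    rw [ae_all_iff]; intro K
    rw [ae_all_iff]; intro i
    rw [Filter.eventually_imp_distrib_left]
    intro hi
    refine Pool.Agent.Run7.h207.LG.ae_sparse _ (fun ε hε => ?_) v w hv'
    obtain ⟨C, hC, h⟩ := Pool.Agent.R116.SP.cntK hi K ε hε
    refine ⟨C, hC, fun X hX => le_trans ?_ (h X hX)⟩
    refine Nat.cast_le.2 (Set.ncard_le_ncard ?_ ((Set.finite_le_nat X).subset fun n hn => hn.2.1))
    rintro n ⟨h1, h2, h3⟩
    exact ⟨h2, h1, h3⟩
  have h2 : ∀ᵐ α : Fin k → ℝ, Avoids v w α fun n => 2 ≤ n ∧ ∃ m : ℕ, Even m ∧ 4 ≤ m ∧ Liftable n m := by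
    refine Pool.Agent.Run7.h207.LG.ae_sparse _ (fun ε hε => ?_) v w hv'
    obtain ⟨C, hC, h⟩ := Pool.Agent.R116.AF.count_exO Pool.Agent.R116.AF.exO_lift ε hε
    refine ⟨C, hC, fun X hX => le_trans ?_ (h X hX)⟩
    refine Nat.cast_le.2 (Set.ncard_le_ncard ?_ ((Set.finite_le_nat X).subset fun n hn => hn.1))
    rintro n ⟨h1, h2, h3⟩
    exact ⟨h1, h2, h3⟩
  filter_upwards [h1, h2] with α a1 a2
  exact ⟨a1, a2⟩

end Pool.Agent.Results.MP_79499b_co.OrdersNearLinearForms
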