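import Pool.Agent.Run7.h823.SG.Null
import Pool.Agent.Run7.h823.WF.PN
import Pool.Agent.Run7.h823.WF.Ex

/-!
# Difference sets with Singer parameters: orders near the first `m ^ ε` terms of linear recurrences modulo `m`

The question is whether `n` is a prime power, if a finite group contains a difference set with the Singer parameters of
`(n, m)`. `HasSingerDifferenceSet n m`: some finite group (not assumed abelian) contains a difference set with the
Singer parameters of `(n, m)`. `Liftable n m`: there is one which lifts, as the classical Singer difference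
sets do, to a relative difference set in a finite group with a normal Sylow 2-subgroup (for example in a nilpotent group).

The starting results count the orders `n ≤ X`, or treat sequences of orders which are uniformly distributed modulo all fixed
integers (`ThinOrdersOddDimension`, `ThinOrdersLiftable`), or polynomial values. Here are statements on very sparse FINITE sets of
orders which are defined modulo a large integer, such as the first `m ^ ε` terms of a linear recurrence modulo a prime `m`.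

Let `y_i`, `i ∈ s`, be a finite family of vectors of residues modulo an integer `q` with small Fourier coefficients: for all
`h ≠ 0` modulo `q` we have `|∑ e(h·y_i / q)| ≤ δ (log q) ^ (-r) |s|`, where `r` is the number of the coordinates. We consider
the integers `n` near `ℓ(c₀ + y_i)` (least residues), for linear forms `ℓ ≠ 0` with integral coefficients and any integral
vector `c₀`.

**Theorem.** For all `r`, `B` and `ε > 0` there is `δ > 0` such that for all `q ≥ 1 / δ`, ALL such families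
and ALL `c₀` the following holds for all but `ε |s|` of the `i`, SIMULTANEOUSLY for ALL linear forms `ℓ ≠ 0` with
coefficients at most `B` in absolute value, ALL integers `n ≥ 2` with `|n - ℓ(c₀ + y_i)| ≤ B` and ALL odd `j ≤ B`:

* no finite group contains a difference set with the Singer parameters of `(n ^ j, m)`, whatever the odd number `m ≥ 3` with
  least prime factor at most `B` is (so for `m = 3` there is no planar difference set of order `n ^ j`, if `B ≥ 3`);
* no difference set with the Singer parameters of `(n ^ j, m)` is liftable, whatever the even number `m ≥ 4` is.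

The family can be very sparse: examples (of vectors with `r` coordinates) are

* the values `(u_1(n), …, u_r(n))`, `n < N`, of `r` linear recurrences modulo a prime `m` with linearly independent vectors
  of coefficients, as soon as `N ≥ m ^ ε` and the roots and their quotients have orders `≥ m ^ ε`;
* the vectors `(x_1 b_1 ^ n, …, x_r b_r ^ n)`, `n < N`, `N ≥ m ^ ε`, for fixed different integers `b_j ≥ 2` and
  all `x_j ≠ 0`, modulo all but `C X ^ ε` of the primes `m ≤ X`.

In these examples only `m ^ ε` of the `m ^ r` vectors of the box occur.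

From Mathlib: `ZMod.stdAddChar`: the additive character `j ↦ exp (2 π i j / q)` of the integers modulo `q`; `ZMod.val`: the
least residue.

The proof: the exclusions are those of the starting files `Pool.Agent.N92.SD.Odd` and `Pool.Agent.N92.SD.Lift`: a prime `q'`
modulo which `n` has the order `j l` (or `1`), and a prime `r'` that is not a square modulo `q'` and divides `n` exactly once. By
Dirichlet's theorem and the sieve with the moduli `q'`, `r' ^ 2`, all of them prime to a given `M`, the vectors `c` for which the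
properties fail form a pronull set (`Pool.Agent.Run7.h823.SG.crit1`, `affine`); families with small Fourier coefficients rarely
meet pronull sets, since they are equidistributed modulo every fixed integer (`Pool.Agent.Run7.h823.WF.PN`); the Fourier
coefficients of short recurrences are estimated by the method of Bourgain, Glibichuk and Konyagin
(`Pool.Agent.Run7.h823.BK`).
-/

set_option autoImplicit false

namespace Pool.Agent.Results.MP_79499b_co.ResidueVectors

open Finset (range)

/-- The Fourier coefficients of the vectors of residues `y i`, `i ∈ s`, modulo `q` at the nonzero frequencies are at most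
`η` times the number of the vectors: `|∑ i ∈ s, e(h·y_i / q)| ≤ η |s|` for all vectors `h ≠ 0` modulo `q`. -/
def Flat {τ ι : Type} [Fintype ι] (q : ℕ) [NeZero q] (η : ℝ) (s : Finset τ) (y : τ → ι → ZMod q) : Prop :=
  ∀ h : ι → ZMod q, h ≠ 0 → ‖∑ i ∈ s, (ZMod.stdAddChar (∑ j, h j * y i j) : ℂ)‖ ≤ η * s.card

/-- The integral vector `c₀ + y_i`, with the least residues `0 ≤ y_i < q`. -/
def vec {τ ι : Type} {q : ℕ} (y : τ → ι → ZMod q) (c₀ : ι → ℤ) (i : τ) (j : ι) : ℤ := c₀ j + ((y i j).val : ℕ)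

/-- Some finite group `G` (not assumed abelian) of order `(n ^ m - 1) / (n - 1)` contains a
difference set `D` with the Singer parameters:
`k = (n ^ (m - 1) - 1) / (n - 1)`, `lambda = (n ^ (m - 2) - 1) / (n - 1)`. -/
def HasSingerDifferenceSet (n m : ℕ) : Prop :=
  ∃ (G : Type) (_ : Group G) (_ : Fintype G) (_ : DecidableEq G) (D : Finset G),
    Fintype.card G * (n - 1) = n ^ m - 1 ∧ D.card * (n - 1) = n ^ (m - 1) - 1 ∧
    ∀ g : G, g ≠ 1 →
      ((D ×ˢ D).filter (fun p : G × G => p.1 * p.2⁻¹ = g)).card * (n - 1) = n ^ (m - 2) - 1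

/-- `E` is a difference set with the Singer parameters in the finite group `Q` (not assumed
abelian): `v = (n ^ m - 1) / (n - 1)`, `k = (n ^ (m - 1) - 1) / (n - 1)`,
`lambda = (n ^ (m - 2) - 1) / (n - 1)`. -/
def IsSinger {Q : Type} [Group Q] [Fintype Q] [DecidableEq Q] (E : Finset Q) (n m : ℕ) : Prop :=
  Fintype.card Q * (n - 1) = n ^ m - 1 ∧ E.card * (n - 1) = n ^ (m - 1) - 1 ∧
    ∀ g : Q, g ≠ 1 →
      ((E ×ˢ E).filter (fun p : Q × Q => p.1 * p.2⁻¹ = g)).card * (n - 1) = n ^ (m - 2) - 1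

/-- The difference set `E` lifts to the group `G`: there are a surjective homomorphism `π : G → Q`
with a kernel of order `n - 1` and a subset `D` of `G`, mapped by `π` bijectively onto the
complement of `E`, such that each `g ∈ G` outside the kernel has exactly `n ^ (m - 2)`
representations `g = d₁ * d₂⁻¹` with `d₁, d₂ ∈ D` (so `D` is a relative difference set in `G`, with
forbidden subgroup the kernel). -/
def LiftsTo {Q : Type} [Group Q] [Fintype Q] [DecidableEq Q] (E : Finset Q) (n m : ℕ)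
    (G : Type) [Group G] [Fintype G] [DecidableEq G] : Prop :=
  ∃ (π : G →* Q) (D : Finset G), Function.Surjective π ∧ Nat.card π.ker = n - 1 ∧
    D.image π = Eᶜ ∧ Set.InjOn π D ∧
    ∀ g : G, π g ≠ 1 → ((D ×ˢ D).filter (fun p : G × G => p.1 * p.2⁻¹ = g)).card = n ^ (m - 2)

/-- There is a difference set with the Singer parameters of `(n, m)` which lifts to a finite group
`G` with a normal Sylow 2-subgroup, i.e. with a normal subgroup of 2-power order and odd index.
(Every nilpotent group and, if `n` is even, every group `G` of order `n ^ m - 1` has one.) -/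
def Liftable (n m : ℕ) : Prop :=
  ∃ (Q : Type) (_ : Group Q) (_ : Fintype Q) (_ : DecidableEq Q) (E : Finset Q)
    (G : Type) (_ : Group G) (_ : Fintype G) (_ : DecidableEq G),
    (∃ K : Subgroup G, K.Normal ∧ (∃ s, Nat.card K = 2 ^ s) ∧ Odd K.index) ∧
    IsSinger E n m ∧ LiftsTo E n m G

/-- Near the values of all small linear forms at the integral vector `c` there are no orders: for all linear forms `ℓ ≠ 0` with
coefficients `|lam_j| ≤ B`, all integers `n ≥ 2` with `|n - ℓ(c)| ≤ B` and all odd `i ≤ B` there is no difference set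
with the Singer parameters of `(n ^ i, m)` in any finite group, for any odd `m ≥ 3` with least prime factor at most `B`, and
no difference set with the Singer parameters of `(n ^ i, m)` is liftable, for any even `m ≥ 4`. -/
def NoOrdersNear {r : ℕ} (B : ℕ) (c : Fin r → ℤ) : Prop :=
  ∀ lam : Fin r → ℤ, lam ≠ 0 → (∀ j, |lam j| ≤ B) → ∀ n : ℕ, 2 ≤ n → |(n : ℤ) - ∑ j, lam j * c j| ≤ B →
    ∀ i : ℕ, i ≤ B → Odd i →
      (∀ m : ℕ, Odd m → 3 ≤ m → m.minFac ≤ B → ¬ HasSingerDifferenceSet (n ^ i) m) ∧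
      ∀ m : ℕ, Even m → 4 ≤ m → ¬ Liftable (n ^ i) m

open Pool.Agent.N24.RW (ProNull) in
open Pool.Agent.Run7.h823.SG in
theorem null (r B : ℕ) : ProNull {c : Fin r → ℤ | ¬ NoOrdersNear B c} := by
  obtain ⟨F, hF⟩ : ∃ F : Set ((Fin r → ℤ) × ℤ × ℕ × ℕ), F = {a : (Fin r → ℤ) × ℤ × ℕ × ℕ | (a.1 ≠ 0 ∧ ∀ j, |a.1 j| ≤ B) ∧
    a.2.1 ∈ Set.Icc (-(B : ℤ)) B ∧ (a.2.2.1 ≤ B ∧ Odd a.2.2.1) ∧ a.2.2.2 ≤ B ∧ a.2.2.2.Prime} := ⟨_, rfl⟩
  obtain ⟨F', hF'⟩ : ∃ F' : Set ((Fin r → ℤ) × ℤ × ℕ), F' = {a : (Fin r → ℤ) × ℤ × ℕ | (a.1 ≠ 0 ∧ ∀ j, |a.1 j| ≤ B) ∧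
    a.2.1 ∈ Set.Icc (-(B : ℤ)) B ∧ a.2.2 ≤ B ∧ Odd a.2.2} := ⟨_, rfl⟩
  have hfin : F.Finite := by
    refine ((Pool.Agent.Run7.h823.WF.PN.finite_vec (Fin r) B).prod ((Set.finite_Icc (-(B : ℤ)) B).prod
      ((Set.finite_Iic B).prod (Set.finite_Iic B)))).subset ?_
    rw [hF]
    rintro ⟨a, b, i, l⟩ ⟨⟨-, h1⟩, h2, ⟨h3, -⟩, h4, -⟩
    exact ⟨h1, h2, h3, h4⟩
  have hfin' : F'.Finite := by
    refine ((Pool.Agent.Run7.h823.WF.PN.finite_vec (Fin r) B).prod ((Set.finite_Icc (-(B : ℤ)) B).prod
      (Set.finite_Iic B))).subset ?_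
    rw [hF']
    rintro ⟨a, b, i⟩ ⟨⟨-, h1⟩, h2, h3, -⟩
    exact ⟨h1, h2, h3⟩
  have h1 := Pool.Agent.Run7.h823.WF.PN.proNull_union hfin
    (fun a => {c : Fin r → ℤ | OddOrder a.2.2.1 a.2.2.2 ((∑ j, a.1 j * c j) + a.2.1)})
    (fun a ha => by
      rw [hF] at ha
      exact odd_null a.1 ha.1.1 a.2.1 ha.2.2.1.2 ha.2.2.2.2)
  have h2 := Pool.Agent.Run7.h823.WF.PN.proNull_union hfin'
    (fun a => {c : Fin r → ℤ | ExOrder (fun n => ∃ m, Even m ∧ 4 ≤ m ∧ Pool.Agent.Run7.h823.SG.Liftable n m) a.2.2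
      ((∑ j, a.1 j * c j) + a.2.1)})
    (fun a ha => by
      rw [hF'] at ha
      exact exO_null exO_lift a.1 ha.1.1 a.2.1 ha.2.2.2)
  refine Pool.Agent.N24.RW.Clo.mono ?_ (Pool.Agent.N24.RW.Clo.union h1 h2)
  intro c hc
  by_contra hcon
  rw [Set.mem_union, not_or] at hcon
  apply hc
  intro lam hl hlB n hn2 hn i hi hio
  have hb : (n : ℤ) - ∑ j, lam j * c j ∈ Set.Icc (-(B : ℤ)) B := abs_le.1 hn
  have e : (n : ℤ) = (∑ j, lam j * c j) + ((n : ℤ) - ∑ j, lam j * c j) := by ring
  refine ⟨fun m hm hm3 hmB hS => hcon.1 ?_, fun m hm hm4 hS => hcon.2 ?_⟩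
  · refine ⟨(lam, (n : ℤ) - ∑ j, lam j * c j, i, m.minFac), ?_, n, e, hn2, m, hm, hm3, m.minFac_dvd, hS⟩
    rw [hF]
    exact ⟨⟨hl, hlB⟩, hb, ⟨hi, hio⟩, hmB, Nat.minFac_prime (by omega)⟩
  · refine ⟨(lam, (n : ℤ) - ∑ j, lam j * c j, i), ?_, n, e, hn2, m, hm, hm4, hS⟩
    rw [hF']
    exact ⟨⟨hl, hlB⟩, hb, hi, hio⟩

/-- **Theorem.** (1) For all `r`, `B` and `ε > 0` there is `δ > 0` such that for all `q ≥ 1 / δ`, all families of vectors of
residues modulo `q` with Fourier coefficients at most `δ (log q) ^ (-r) |s|` at the nonzero frequencies and all integral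
vectors `c₀` all but `ε |s|` of the members `c₀ + y_i` have the property `NoOrdersNear B`.

(2) Examples: short linear recurrences. (3) Examples: the first powers of fixed integers, modulo all but `C X ^ ε` of the
primes `m ≤ X`. (The Fourier coefficients are even at most `m ^ (-β) N`.) -/
theorem result :
    (∀ (r B : ℕ) (ε : ℝ), 0 < ε → ∃ δ : ℝ, 0 < δ ∧ ∀ (q : ℕ) [NeZero q], 1 / δ ≤ q →
      ∀ (τ : Type) (s : Finset τ) (y : τ → Fin r → ZMod q), Flat q (δ / Real.log q ^ r) s y →
      ∀ c₀ : Fin r → ℤ, ({i : τ | i ∈ s ∧ ¬ NoOrdersNear B (vec y c₀ i)}.ncard : ℝ) ≤ ε * s.card) ∧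
    (∀ (k : ℕ) (ε : ℝ), 0 < ε → ∃ β : ℝ, 0 < β ∧ ∃ m₀ : ℕ, ∀ (m : ℕ) [Fact m.Prime], m₀ ≤ m →
      ∀ (ι : Type) [Fintype ι] (c : ι → Fin k → ZMod m) (g : Fin k → (ZMod m)ˣ) (N : ℕ), LinearIndependent (ZMod m) c →
      (∀ i, (m : ℝ) ^ ε ≤ orderOf (g i)) → (∀ i j, i ≠ j → (m : ℝ) ^ ε ≤ orderOf (g i / g j)) → (m : ℝ) ^ ε ≤ N →
      Flat m ((m : ℝ) ^ (-β)) (range N) (fun n j => ∑ i, c j i * (g i : ZMod m) ^ n)) ∧
    (∀ (ι : Type) [Fintype ι] (ε : ℝ), 0 < ε → ∃ β : ℝ, 0 < β ∧ ∀ b : ι → ℕ, (∀ j, 2 ≤ b j) → Function.Injective b →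
      ∃ C : ℝ, ∀ X : ℕ, 1 ≤ X → ∀ Q : Finset ℕ,
      (∀ m ∈ Q, m ≤ X ∧ ∃ _ : Fact m.Prime, ¬ ∀ N : ℕ, (m : ℝ) ^ ε ≤ N → ∀ x : ι → ZMod m, (∀ j, x j ≠ 0) →
        Flat m ((m : ℝ) ^ (-β)) (range N) (fun n j => x j * (b j : ZMod m) ^ n)) →
      (Q.card : ℝ) ≤ C * (X : ℝ) ^ ε) := by
  refine ⟨?_, fun k ε hε => Pool.Agent.Run7.h823.WF.flat_rec' k hε,
    fun ι _ ε hε => Pool.Agent.Run7.h823.WF.flat_pow' ι hε⟩
  intro r B ε hε
  obtain ⟨δ, hδ, h⟩ := Pool.Agent.Run7.h823.WF.PN.rare _ (null r B) hε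
  refine ⟨δ, hδ, fun q _ hq τ s y hf c₀ => h τ q hq s y ?_ c₀⟩
  rw [Fintype.card_fin]
  exact hf

end Pool.Agent.Results.MP_79499b_co.ResidueVectors
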