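import Mathlib
import Pool.Agent.Run7.h129.BU.TL
import Pool.Agent.Run7.h129.BU.TO
import Pool.Agent.Results.MP_79499b_co.AlmostAllOddDvd
import Pool.Agent.Results.MP_79499b_co.OrderCountOdd

/-!
# Orders of difference sets with Singer parameters among the terms of sparse sequences `⌊β t ^ κ⌋`

For every `κ ≥ 1` there is a set `E κ` of real numbers, of Hausdorff dimension less than one, such that for all real
`β > 0` outside of `E κ`:

* for all odd `L ≥ 3` (with a congruence condition if `L` is a prime) the number of the `t ≤ M` for which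
  `n = ⌊β t ^ κ⌋` is not a prime power although some finite group contains a difference set with the Singer
  parameters of `(n, m)`, `m` odd and divisible by `L`, is `o(M / log M)`. The prime power conjecture says that there
  are no such `t`. The number of the `t ≤ M` for which `n` is a prime is at least `c M / log M`, and for these there
  are such difference sets by Singer's theorem: almost all the orders in the sequence are prime powers.
* for all `K` and `ε > 0` there are such difference sets for some odd `m ≥ 3` with least prime factor at most `K`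
  for at most `C M / (log M) ^ (1 - ε)` of the `t ≤ M`.

The starting theorems `AlmostAllOddDvd` and `OrderCountOdd` are about all `n ≤ X`. The sequences `⌊β t ^ κ⌋`,
`κ > 1`, are sets of density zero, and their terms up to `X` are fewer than `X ^ (1 / κ + o(1))`. The transfer is the
law for ARBITRARY sets of integers along such sequences (`Pool.Agent.Run7.h129.BU.main_U`) with
`Pool.Agent.Run7.h129.BU.tu_little`.
-/

set_option autoImplicit false

open Filter MeasureTheory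

namespace Pool.Agent.Results.MP_79499b_co.SparseSequences

/-- Some finite group `G` (not assumed abelian) of order `(n ^ m - 1) / (n - 1)` contains a
difference set `D` with the Singer parameters:
`k = (n ^ (m - 1) - 1) / (n - 1)`, `lambda = (n ^ (m - 2) - 1) / (n - 1)`. -/
def HasSingerDifferenceSet (n m : ℕ) : Prop :=
  ∃ (G : Type) (_ : Group G) (_ : Fintype G) (_ : DecidableEq G) (D : Finset G),
    Fintype.card G * (n - 1) = n ^ m - 1 ∧ D.card * (n - 1) = n ^ (m - 1) - 1 ∧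
    ∀ g : G, g ≠ 1 →
      ((D ×ˢ D).filter (fun p : G × G => p.1 * p.2⁻¹ = g)).card * (n - 1) = n ^ (m - 2) - 1

/-- `n ≥ 2` is not a prime power and for some odd `m ≥ 3` divisible by `L` some finite group contains a difference
set with the Singer parameters of `(n, m)`; in case `L` is a prime only the pairs with `n ≡ 2 (mod 4)` or with
`n ≡ 1 (mod 4)` and `m ≡ 3 (mod 4)` are considered. -/
def Counterexample (L n : ℕ) : Prop :=
  2 ≤ n ∧ ¬ IsPrimePow n ∧ ∃ m : ℕ, Odd m ∧ 3 ≤ m ∧ L ∣ m ∧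
    (¬ L.Prime ∨ n % 4 = 2 ∨ (n % 4 = 1 ∧ m % 4 = 3)) ∧ HasSingerDifferenceSet n m

/-- `n ≥ 2` and for some odd `m ≥ 3` whose least prime factor is at most `K` some finite group contains a difference
set with the Singer parameters of `(n, m)`. -/
def IsOrder (K n : ℕ) : Prop :=
  2 ≤ n ∧ ∃ m : ℕ, Odd m ∧ 3 ≤ m ∧ m.minFac ≤ K ∧ HasSingerDifferenceSet n m

/-- The number of the `1 ≤ t ≤ M` for which `⌊β t ^ κ⌋` has the property `P`. -/
noncomputable def count (β κ : ℝ) (P : ℕ → Prop) (M : ℕ) : ℕ :=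
  {t : ℕ | 1 ≤ t ∧ t ≤ M ∧ P ⌊β * (t : ℝ) ^ κ⌋₊}.ncard

lemma count_eq (β κ : ℝ) (P : ℕ → Prop) (M : ℕ) :
    Pool.Agent.Run7.h129.BU.cntA {n : ℕ | P n} β κ M = count β κ P M := rfl

lemma primes_many : ∀ᶠ x : ℕ in atTop, (1 / 10 : ℝ) * (x / (Real.log x) ^ 1) ≤
    ({n : ℕ | 1 ≤ n ∧ (n : ℝ) ≤ x ∧ n ∈ {p : ℕ | p.Prime}}.ncard : ℝ) := by
  filter_upwards [eventually_ge_atTop 100] with k hk
  set x : ℝ := (k : ℝ) with hx
  have hx100 : 100 ≤ x := by rw [hx]; exact_mod_cast hk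
  have hx0 : 0 < x := by linarith
  have hl : 0 < Real.log x := Real.log_pos (by linarith)
  have hpi := Chebyshev.pi_ge' (x := x) (by linarith)
  have hcard : (Nat.primeCounting ⌊x⌋₊ : ℝ) = ({n : ℕ | 1 ≤ n ∧ (n : ℝ) ≤ x ∧ n ∈ {p : ℕ | p.Prime}}.ncard : ℝ) := by
    rw [Nat.primeCounting, Nat.primeCounting', Nat.count_eq_card_filter_range, ← Set.ncard_coe_finset]
    congr 2
    ext n
    simp only [Finset.coe_filter, Finset.mem_range, Set.mem_ofPred_eq]
    constructor
    · rintro ⟨h1, h2⟩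
      exact ⟨h2.one_le, (Nat.le_floor_iff hx0.le).1 (by omega), h2⟩
    · rintro ⟨h1, h2, h3⟩
      exact ⟨by have := Nat.le_floor h2; omega, h3⟩
  change (1 / 10 : ℝ) * (x / (Real.log x) ^ 1) ≤ ({n : ℕ | 1 ≤ n ∧ (n : ℝ) ≤ x ∧ n ∈ {p : ℕ | p.Prime}}.ncard : ℝ)
  rw [← hcard, pow_one]
  refine le_trans ?_ hpi
  rw [mul_div_assoc', div_le_div_iff_of_pos_right hl]
  have hl2 : (1 / 2 : ℝ) < Real.log 2 := by have := Real.log_two_gt_d9; linarith
  have e1 : Real.log (x + 2) ≤ x / 10 := by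
    have h8 : Real.log (x + 2) ≤ 4 * Real.sqrt (Real.sqrt (x + 2)) - 4 := by
      have h6 := Real.log_le_sub_one_of_pos (Real.sqrt_pos.2 (Real.sqrt_pos.2 (by linarith : 0 < x + 2)))
      rw [Real.log_sqrt (Real.sqrt_nonneg _), Real.log_sqrt (by linarith)] at h6
      linarith
    have h5 : x + 2 ≤ (9 / 80 * x + 1) ^ 2 := by nlinarith
    have h7 : 9 / 80 * x + 1 ≤ (x / 40 + 1) ^ 2 := by nlinarith
    have h9 : Real.sqrt (Real.sqrt (x + 2)) ≤ x / 40 + 1 := by
      rw [Real.sqrt_le_left (by linarith)]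
      exact ((Real.sqrt_le_left (by linarith)).2 h5).trans h7
    linarith
  nlinarith

/-- There are sets `E κ` of real numbers, of Hausdorff dimension less than one for all `κ ≥ 1`, such that:
(1) for all `κ ≥ 1`, all real `β > 0` not in `E κ` and all odd `L ≥ 3` the number of the `t ≤ M` for which
`n = ⌊β t ^ κ⌋` is not a prime power but some finite group contains a difference set with the Singer parameters of
`(n, m)` for some odd `m` divisible by `L` (`Counterexample L n`) is `o(M / log M)`;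
(2) for all `K` and `0 < ε < 1` there is `C`, independent of `κ` and `β`, such that for all `κ ≥ 1`, all real `β > 0`
not in `E κ` and all large `M` at most `C M / (log M) ^ (1 - ε)` of the numbers `⌊β t ^ κ⌋`, `t ≤ M`, satisfy
`IsOrder K`;
(3) for all `κ ≥ 1` there is `c > 0` such that for all real `β > 0` not in `E κ` and all large `M` at least
`c M / log M` of the numbers `⌊β t ^ κ⌋`, `t ≤ M`, are primes. -/
theorem result : ∃ E : ℝ → Set ℝ, (∀ κ : ℝ, 1 ≤ κ → dimH (E κ) < 1) ∧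
    (∀ κ : ℝ, 1 ≤ κ → ∀ β : ℝ, 0 < β → β ∉ E κ → ∀ L : ℕ, Odd L → 3 ≤ L →
      Tendsto (fun M : ℕ => (count β κ (Counterexample L) M : ℝ) * Real.log M / M) atTop (nhds 0)) ∧
    (∀ (K : ℕ) (ε : ℝ), 0 < ε → ε < 1 → ∃ C : ℝ, 0 < C ∧ ∀ κ : ℝ, 1 ≤ κ → ∀ β : ℝ, 0 < β → β ∉ E κ →
      ∀ᶠ M : ℕ in atTop, (count β κ (IsOrder K) M : ℝ) ≤ C * (M / (Real.log M) ^ (1 - ε))) ∧
    ∀ κ : ℝ, 1 ≤ κ → ∃ c : ℝ, 0 < c ∧ ∀ β : ℝ, 0 < β → β ∉ E κ →
      ∀ᶠ M : ℕ in atTop, c * (M / Real.log M) ≤ (count β κ Nat.Prime M : ℝ) := by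
  have key : ∀ κ : ℝ, ∃ E : Set ℝ, 1 ≤ κ → (dimH E < 1 ∧ ∃ a : ℝ, 0 < a ∧ ∀ β : ℝ, 0 < β → β ∉ E →
      (∀ L : ℕ, ∃ C : ℝ, ∀ M : ℕ, 1 ≤ M →
        |(Pool.Agent.Run7.h129.BU.cntA {n : ℕ | Counterexample L n} β κ M : ℝ) -
          Pool.Agent.Run7.h129.BU.volA {n : ℕ | Counterexample L n} β κ M| ≤ C * (M : ℝ) ^ (1 - a)) ∧
      (∀ K : ℕ, ∃ C : ℝ, ∀ M : ℕ, 1 ≤ M →
        |(Pool.Agent.Run7.h129.BU.cntA {n : ℕ | IsOrder K n} β κ M : ℝ) -
          Pool.Agent.Run7.h129.BU.volA {n : ℕ | IsOrder K n} β κ M| ≤ C * (M : ℝ) ^ (1 - a)) ∧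
      ∃ C : ℝ, ∀ M : ℕ, 1 ≤ M →
        |(Pool.Agent.Run7.h129.BU.cntA {n : ℕ | n.Prime} β κ M : ℝ) -
          Pool.Agent.Run7.h129.BU.volA {n : ℕ | n.Prime} β κ M| ≤ C * (M : ℝ) ^ (1 - a)) := by
    intro κ
    by_cases hκ : 1 ≤ κ
    · obtain ⟨a, D, ha, ha1, hD0, hD, h⟩ := Pool.Agent.Run7.h129.BU.main_U (by linarith : 0 < κ)
      choose E hE hEβ using fun L : ℕ => h {n : ℕ | Counterexample L n}
      choose F hF hFβ using fun K : ℕ => h {n : ℕ | IsOrder K n}
      obtain ⟨G, hG, hGβ⟩ := h {n : ℕ | n.Prime}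
      refine ⟨((⋃ k, E k) ∪ ⋃ k, F k) ∪ G, fun _ => ⟨?_, a, ha, fun β hβ hβE => ⟨fun L => hEβ L β hβ fun hcon =>
        hβE (Or.inl (Or.inl (Set.mem_iUnion.2 ⟨L, hcon⟩))), fun K => hFβ K β hβ fun hcon =>
        hβE (Or.inl (Or.inr (Set.mem_iUnion.2 ⟨K, hcon⟩))), hGβ β hβ fun hcon => hβE (Or.inr hcon)⟩⟩⟩
      refine lt_of_le_of_lt (b := ENNReal.ofReal D) ?_ ?_
      · rw [dimH_union, dimH_union, dimH_iUnion, dimH_iUnion]
        exact max_le (max_le (iSup_le hE) (iSup_le hF)) hG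
      · rw [← ENNReal.ofReal_one]
        exact (ENNReal.ofReal_lt_ofReal_iff one_pos).2 hD
    · exact ⟨∅, fun h => absurd h hκ⟩
  choose E hE using key
  refine ⟨E, fun κ hκ => (hE κ hκ).1, fun κ hκ β hβ hβE L hL hL3 => ?_, fun K ε hε hε1 => ?_, fun κ hκ => ?_⟩
  · obtain ⟨a, ha, h⟩ := (hE κ hκ).2
    have hlaw := (h β hβ hβE).1 L
    have h0 := AlmostAllOddDvd.result L hL hL3
    rw [Metric.tendsto_atTop]
    intro δ hδ
    have hη : 0 < δ / 20 := by positivity
    have hbase : ∀ᶠ n : ℕ in atTop, ({i : ℕ | i < n ∧ i ∈ {n : ℕ | Counterexample L n}}.ncard : ℝ) ≤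
        δ / 20 * (n / (Real.log n) ^ (1 : ℝ)) := by
      filter_upwards [h0.eventually (gt_mem_nhds hη), eventually_ge_atTop 3] with n hn hn3
      have hnR : (3 : ℝ) ≤ n := by exact_mod_cast hn3
      have hl : 0 < Real.log n := Real.log_pos (by linarith)
      rw [Real.rpow_one, mul_div_assoc', le_div_iff₀ hl]
      rw [div_lt_iff₀ (by linarith)] at hn
      refine le_trans ?_ hn.le
      refine mul_le_mul_of_nonneg_right ?_ hl.le
      rw [Nat.cast_le]
      refine Set.ncard_le_ncard ?_ ((Set.finite_Iic n).subset fun m hm => hm.2.1)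
      rintro i ⟨h1, h2, h3, m, h4, h5, h6, h7, h8⟩
      exact ⟨h2, h1.le, h3, m, h4, h5, h6, h7, h8⟩
    have h1 := Pool.Agent.Run7.h129.BU.tu_little (η := δ / 20) zero_le_one hβ hκ ha hη hlaw hbase
    obtain ⟨M₀, hM₀⟩ := eventually_atTop.1 (h1.and (eventually_ge_atTop 3))
    refine ⟨M₀, fun M hM => ?_⟩
    obtain ⟨h2, h3⟩ := hM₀ M hM
    have hMR : (3 : ℝ) ≤ M := by exact_mod_cast h3
    have hl : 0 < Real.log M := Real.log_pos (by linarith)
    rw [Real.rpow_one, Real.rpow_one, count_eq] at h2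
    rw [Real.dist_eq, sub_zero, abs_of_nonneg (by positivity)]
    rw [div_lt_iff₀ (by linarith)]
    have h5 : (4 + 1) * (δ / 20) * (M / Real.log M) * Real.log M = δ / 4 * M := by
      field_simp
      ring
    have h6 := mul_le_mul_of_nonneg_right h2 hl.le
    rw [h5] at h6
    nlinarith
  · obtain ⟨C, hC, h0⟩ := OrderCountOdd.result K ε hε
    have h4 : (0 : ℝ) < (4 : ℝ) ^ (1 - ε) := by positivity
    refine ⟨((4 : ℝ) ^ (1 - ε) + 1) * C, by positivity, fun κ hκ β hβ hβE => ?_⟩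
    obtain ⟨a, ha, h⟩ := (hE κ hκ).2
    have hlaw := (h β hβ hβE).2.1 K
    have hbase : ∀ᶠ n : ℕ in atTop, ({i : ℕ | i < n ∧ i ∈ {n : ℕ | IsOrder K n}}.ncard : ℝ) ≤
        C * (n / (Real.log n) ^ (1 - ε)) := by
      filter_upwards [eventually_ge_atTop 3] with n hn3
      have hnR : (3 : ℝ) ≤ n := by exact_mod_cast hn3
      have hl : 0 < Real.log n := Real.log_pos (by linarith)
      have h1 := h0 n hn3
      have h2 : C * n * Real.log n ^ (ε - 1) = C * (n / (Real.log n) ^ (1 - ε)) := by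
        rw [show ε - 1 = -(1 - ε) by ring, Real.rpow_neg hl.le]
        ring
      rw [← h2]
      refine le_trans ?_ h1
      rw [Nat.cast_le]
      refine Set.ncard_le_ncard ?_ ((Set.finite_Iic n).subset fun m hm => hm.2.1)
      rintro i ⟨h1, h2, m, h4, h5, h6, h7⟩
      exact ⟨h2, h1.le, m, h4, h5, h6, h7⟩
    have h1 := Pool.Agent.Run7.h129.BU.tu_little (a := 1 - ε) (by linarith) hβ hκ ha hC hlaw hbase
    filter_upwards [h1] with M hM
    rw [count_eq] at hM
    exact hM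
  · obtain ⟨a, ha, h⟩ := (hE κ hκ).2
    refine ⟨1 / 10 / (4 * κ * (2 * κ) ^ 1), by positivity, fun β hβ hβE => ?_⟩
    have hlaw := (h β hβ hβE).2.2
    have := Pool.Agent.Run7.h129.BU.tr_log 1 hβ hκ ha (by norm_num : (0 : ℝ) < 1 / 10) hlaw primes_many
    filter_upwards [this] with M hM
    rw [pow_one (Real.log (M : ℝ)), count_eq] at hM
    exact hM

end Pool.Agent.Results.MP_79499b_co.SparseSequences
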